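import Pool.Agent.Q196.NM.Main

/-!
# Polynomials whose second twisted derivative has only prescribed zeros

If `P` is a non-constant polynomial with only simple zeros and every zero of
`d²(P) = c² P + 2 c P' + P''` is a zero of `P` or of `d(P) = c P + P'`, then `c = 0`.

The map `F(z) = z - P(z) / (c P(z) + P'(z))` is the Newton map of `P(z) exp(c z)`, and
`F' = P d²(P) / d(P)²`. For `c ≠ 0` the point at infinity is a parabolic fixed point of `F`, and if
`F` had no critical point besides the zeros of `P`, inverse branches along the parabolic basin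
would contradict the Schwarz lemma.
-/

set_option autoImplicit false

open Polynomial

namespace Pool.Agent.Results.MP_3dabd4_an.TwistedZero

/-- The twisted derivative `d(P) = c P + P'`. -/
noncomputable def d (c : ℂ) (P : ℂ[X]) : ℂ[X] := C c * P + derivative P

/-- Condition (Z): every zero of `d²(P)` in `ℂ` is a zero of `P` or a zero of `d(P)`. -/
def CondZ (P : ℂ[X]) (c : ℂ) : Prop :=
  ∀ z : ℂ, (d c (d c P)).eval z = 0 → P.eval z = 0 ∨ (d c P).eval z = 0

/-- Q1 has a positive answer: for a non-constant polynomial `P` with only simple zeros,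
condition (Z) forces `c = 0`. -/
theorem result (P : ℂ[X]) (c : ℂ) (hP : 0 < P.natDegree)
    (hs : ∀ z : ℂ, P.eval z = 0 → (derivative P).eval z ≠ 0) (hZ : CondZ P c) : c = 0 := by
  by_contra hc
  have hP0 : P ≠ 0 := by
    rintro rfl
    simp at hP
  obtain ⟨z₁, hz₁⟩ := IsAlgClosed.exists_root P
    (by rw [Polynomial.degree_eq_natDegree hP0]; exact_mod_cast hP.ne')
  obtain ⟨z, h1, h2, h3⟩ := Q196.NM.exists_free_critical (P := P) (Q := C c) hP0
    (by simpa using hc) hs hz₁
  rw [(Q196.NM.hasStrictDerivAt_nmap P _ h1).hasDerivAt.deriv] at h3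
  have hdd : Q196.NM.dd P (C c) = d c P := rfl
  rw [hdd] at h1 h3
  have h4 : (d c P).eval z = c * P.eval z + (derivative P).eval z := by
    simp [d]
  have h5 : (d c (d c P)).eval z = c * (d c P).eval z + (derivative (d c P)).eval z := by
    rw [d, eval_add, eval_mul, eval_C]
  have h6 : P.eval z * (d c (d c P)).eval z = 0 := by
    have h7 : (d c P).eval z ^ 2 ≠ 0 := pow_ne_zero 2 h1
    have h8 : ((derivative P).eval z * (d c P).eval z - P.eval z * (derivative (d c P)).eval z)
        = (d c P).eval z ^ 2 := by
      have := sub_eq_zero.mp h3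
      rw [eq_comm, div_eq_one_iff_eq h7] at this
      exact this
    rw [h5]
    linear_combination (-1 : ℂ) * h8 - (d c P).eval z * h4
  rcases mul_eq_zero.mp h6 with h7 | h7
  · exact h2 h7
  · rcases hZ z h7 with h8 | h8
    · exact h2 h8
    · exact h1 h8

end Pool.Agent.Results.MP_3dabd4_an.TwistedZero
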